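import Mathlib
import Pool.Agent.H47.WT.Defs

set_option autoImplicit false

namespace Pool.Agent.H47.WT

variable {H : Type} [Group H]

/-- translation of finitely supported functions, pointwise -/
theorem n2_smul_apply {X : Type} [MulAction H X] (g : H) (u : X →₀ ℤ) (x : X) :
    u.mapDomain (fun y => g • y) x = u (g⁻¹ • x) := by
  have h := Finsupp.mapDomain_equiv_apply (f := MulAction.toPerm g) u x
  exact h

/-- N2 -/
theorem van_transfer (C₀ C : Subgroup H) (h : C₀ ≤ C) (hi : C₀.relIndex C ≠ 0)
    (hv : Van H (H ⧸ C₀)) : Van H (H ⧸ C) := by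
  classical
  set e : H ⧸ C₀ ≃ (H ⧸ C) × C ⧸ C₀.subgroupOf C := Subgroup.quotientEquivProdOfLE h with he
  have hfin : Finite (C ⧸ C₀.subgroupOf C) := by
    have : (C₀.subgroupOf C).index ≠ 0 := hi
    exact Nat.finite_of_card_ne_zero this
  have := Fintype.ofFinite (C ⧸ C₀.subgroupOf C)
  set n : ℕ := Fintype.card (C ⧸ C₀.subgroupOf C) with hn
  have hn0 : (n : ℤ) ≠ 0 := by
    have : 0 < n := Fintype.card_pos
    omega
  let π : H ⧸ C₀ → H ⧸ C := Subgroup.quotientMapOfLE h
  have hπe : ∀ x, (e x).1 = π x := fun x => by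
    induction x using QuotientGroup.induction_on with
    | H g => rfl
  have hπs : ∀ y q, π (e.symm (y, q)) = y := fun y q => by
    rw [← hπe, e.apply_symm_apply]
  have hπg : ∀ (g : H) x, π (g • x) = g • π x := fun g x => by
    induction x using QuotientGroup.induction_on with
    | H a => rfl
  let τ : (H ⧸ C →₀ ℤ) → (H ⧸ C₀ →₀ ℤ) := fun u =>
    ∑ q : C ⧸ C₀.subgroupOf C, u.mapDomain (fun y => e.symm (y, q))
  have hinj : ∀ q, Function.Injective (fun y : H ⧸ C => e.symm (y, q)) := fun q a b hab => by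
    have := e.symm.injective hab
    exact (Prod.ext_iff.1 this).1
  have hτ : ∀ u x, τ u x = u (π x) := by
    intro u x
    simp only [τ]
    rw [Finsupp.finsetSum_apply, Finset.sum_eq_single (e x).2]
    · have hx : x = e.symm (π x, (e x).2) := by
        rw [← hπe, Prod.mk.eta, e.symm_apply_apply]
      conv_lhs => rw [hx]
      have := Finsupp.mapDomain_apply (hinj (e x).2) u (π x)
      rw [← hx] at this ⊢
      exact this
    · intro q _ hq
      apply Finsupp.mapDomain_of_notMem_range
      rintro ⟨y, hy⟩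
      apply hq
      rw [← hy]
      simp
    · intro hq; exact absurd (Finset.mem_univ _) hq
  have hτs : ∀ (g : H) u, τ (u.mapDomain (fun y => g • y)) = (τ u).mapDomain (fun y => g • y) := by
    intro g u
    ext x
    rw [hτ, n2_smul_apply, n2_smul_apply, hτ, hπg]
  have hτa : ∀ u v, τ (u + v) = τ u + τ v := by
    intro u v
    ext x
    rw [hτ, Finsupp.add_apply, Finsupp.add_apply, hτ, hτ]
  have hπτ : ∀ u, (τ u).mapDomain π = n • u := by
    intro u
    simp only [τ]
    rw [Finsupp.mapDomain_finsetSum]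
    have h1 : ∀ q, Finsupp.mapDomain π (u.mapDomain (fun y => e.symm (y, q))) = u := by
      intro q
      rw [← Finsupp.mapDomain_comp]
      have : π ∘ (fun y => e.symm (y, q)) = id := by
        funext y; exact hπs y q
      rw [this, Finsupp.mapDomain_id]
    rw [Finset.sum_congr rfl (fun q _ => h1 q), Finset.sum_const, Finset.card_univ]
  intro f hf
  obtain ⟨y, hy⟩ := hv (fun g => τ (f g)) (by
    intro g k
    show τ (f (g * k)) = τ (f g) + (τ (f k)).mapDomain (fun x => g • x)
    rw [hf g k, hτa, hτs])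
  set z : H ⧸ C →₀ ℤ := y.mapDomain π with hz
  have hz1 : ∀ (g : H) x, (n : ℤ) * f g x = z (g⁻¹ • x) - z x := by
    intro g x
    have h1 := congrArg (Finsupp.mapDomain π) (hy g)
    rw [hπτ, Finsupp.mapDomain_sub, ← Finsupp.mapDomain_comp] at h1
    have h2 : π ∘ (fun y => g • y) = (fun y => g • y) ∘ π := by
      funext x; exact hπg g x
    rw [h2, Finsupp.mapDomain_comp, ← hz] at h1
    have h3 := DFunLike.congr_fun h1 x
    rw [Finsupp.sub_apply, n2_smul_apply, Finsupp.smul_apply] at h3
    rw [← h3]; simp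
  -- a base point
  obtain ⟨x0, hx0⟩ : ∃ x0 : H ⧸ C, (Infinite (H ⧸ C) → z x0 = 0) := by
    by_cases hinf : Infinite (H ⧸ C)
    · obtain ⟨x0, hx0⟩ := Infinite.exists_notMem_finset z.support
      exact ⟨x0, fun _ => Finsupp.notMem_support_iff.1 hx0⟩
    · exact ⟨((1 : H) : H ⧸ C), fun h => absurd h hinf⟩
  have hdvd : ∀ x, (n : ℤ) ∣ z x - z x0 := by
    intro x
    obtain ⟨g, hg⟩ := MulAction.exists_smul_eq H x x0
    have := hz1 g⁻¹ x0
    -- `z (g • x0) - z x0`; use `g • x = x0`
    have h1 := hz1 g x0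
    have h2 : g⁻¹ • x0 = x := by rw [← hg, inv_smul_smul]
    rw [h2] at h1
    exact Dvd.intro _ h1
  choose w hw using hdvd
  have hsupp : (Function.support w).Finite := by
    by_cases hinf : Infinite (H ⧸ C)
    · refine z.finite_support.subset fun x hx => ?_
      have h0 := hx0 hinf
      rw [Function.mem_support] at hx ⊢
      intro hzx
      apply hx
      have := hw x
      rw [hzx, h0, sub_zero] at this
      exact (mul_eq_zero.1 this.symm).resolve_left hn0
    · have := not_infinite_iff_finite.1 hinf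
      exact Set.toFinite _
  refine ⟨Finsupp.ofSupportFinite w hsupp, fun g => ?_⟩
  ext x
  rw [Finsupp.sub_apply, n2_smul_apply]
  have e1 : ∀ x, (Finsupp.ofSupportFinite w hsupp) x = w x := fun x => rfl
  rw [e1, e1]
  apply mul_left_cancel₀ hn0
  rw [hz1, mul_sub, ← hw, ← hw]
  ring

end Pool.Agent.H47.WT
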