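import Mathlib
import Pool.Agent.H47.WT.Defs
import Pool.Agent.H47.WT.Defs2

set_option autoImplicit false

namespace Pool.Agent.H47.WT

/-- in an atoroidal torsion-free group, an element commuting with `x ≠ 1` has a power in `⟨x⟩` -/
theorem n6_pow {K : Type} [Group K] (htf : ∀ g : K, IsOfFinOrder g → g = 1) (hat : Atoroidal K)
    {x y : K} (hx : x ≠ 1) (hxy : Commute x y) : ∃ m : ℕ, 0 < m ∧ y ^ m ∈ Subgroup.zpowers x := by
  let φ : Multiplicative (ℤ × ℤ) →* K :=
    { toFun := fun p => x ^ (Multiplicative.toAdd p).1 * y ^ (Multiplicative.toAdd p).2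
      map_one' := by simp
      map_mul' := fun p q => by
        simp only [toAdd_mul, Prod.fst_add, Prod.snd_add, zpow_add]
        have h1 : Commute (y ^ (Multiplicative.toAdd p).2) (x ^ (Multiplicative.toAdd q).1) :=
          (hxy.symm.zpow_zpow _ _)
        calc x ^ (Multiplicative.toAdd p).1 * x ^ (Multiplicative.toAdd q).1 *
              (y ^ (Multiplicative.toAdd p).2 * y ^ (Multiplicative.toAdd q).2)
            = x ^ (Multiplicative.toAdd p).1 * (x ^ (Multiplicative.toAdd q).1 *
              y ^ (Multiplicative.toAdd p).2) * y ^ (Multiplicative.toAdd q).2 := by group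
          _ = x ^ (Multiplicative.toAdd p).1 * (y ^ (Multiplicative.toAdd p).2 *
              x ^ (Multiplicative.toAdd q).1) * y ^ (Multiplicative.toAdd q).2 := by rw [h1.eq]
          _ = _ := by group }
  have hφ : ¬ Function.Injective φ := fun h => hat ⟨φ, h⟩
  rw [injective_iff_map_eq_one] at hφ
  push Not at hφ
  obtain ⟨p, hp1, hp2⟩ := hφ
  have h1 : x ^ (Multiplicative.toAdd p).1 * y ^ (Multiplicative.toAdd p).2 = 1 := hp1
  set i := (Multiplicative.toAdd p).1 with hi
  set j := (Multiplicative.toAdd p).2 with hj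
  have hj0 : j ≠ 0 := by
    intro hj0
    rw [hj0, zpow_zero, mul_one] at h1
    by_cases hi0 : i = 0
    · apply hp2
      apply Multiplicative.toAdd.injective
      rw [toAdd_one]
      exact Prod.ext hi0 hj0
    · exact hx (htf x (isOfFinOrder_iff_zpow_eq_one.2 ⟨i, hi0, h1⟩))
  refine ⟨j.natAbs, Int.natAbs_pos.2 hj0, ?_⟩
  have h2 : y ^ j = x ^ (-i) := by
    rw [zpow_neg]
    exact (inv_eq_of_mul_eq_one_right h1).symm
  have h3 : y ^ j ∈ Subgroup.zpowers x := by
    rw [h2]; exact zpow_mem (Subgroup.mem_zpowers x) _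
  rcases Int.natAbs_eq j with h4 | h4
  · rw [← zpow_natCast, ← h4]; exact h3
  · have h5 : ((j.natAbs : ℕ) : ℤ) = -j := by omega
    rw [← zpow_natCast, h5, zpow_neg]; exact inv_mem h3

/-- torsion solvable groups with all subgroups finitely generated are finite -/
theorem n6_torsion {Q : Type} [Group Q] (hs : Group.IsSolvable Q) (hfg : ∀ L : Subgroup Q, L.FG)
    (ht : ∀ g : Q, IsOfFinOrder g) : Finite Q := by
  obtain ⟨n, hn⟩ := hs.solvable
  have key : ∀ k, k ≤ n → Finite (derivedSeries Q (n - k)) := by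
    intro k
    induction k with
    | zero =>
      intro _
      rw [Nat.sub_zero, hn]
      infer_instance
    | succ k ih =>
      intro hk
      have hD := ih (by omega)
      have e : n - k = (n - (k + 1)) + 1 := by omega
      rw [e, derivedSeries_succ] at hD
      set D := derivedSeries Q (n - (k + 1)) with hDdef
      -- the commutator subgroup of `D`
      have h1 : Finite (commutator D) := by
        rw [← Subgroup.map_subtype_commutator] at hD
        have e2 := (commutator D).equivMapOfInjective D.subtype D.subtype_injective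
        exact Finite.of_equiv _ e2.toEquiv.symm
      have hDfg : Group.FG D := (Group.fg_iff_subgroup_fg D).2 (hfg D)
      have h2 : Finite (Abelianization D) := by
        have : Group.FG (Abelianization D) :=
          Group.fg_of_surjective (f := (Abelianization.of : D →* Abelianization D))
            (QuotientGroup.mk'_surjective _)
        apply CommGroup.finite_of_fg_isMulTorsion
        intro x
        induction x using QuotientGroup.induction_on with
        | H d =>
          have hd : IsOfFinOrder d := by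
            have := ht (d : Q)
            rwa [← Submonoid.isOfFinOrder_coe]
          exact (Abelianization.of : D →* Abelianization D).isOfFinOrder hd
      have h3 := (commutator D).card_mul_index
      have h4 : Nat.card (commutator D) ≠ 0 := Nat.card_ne_zero.2 ⟨⟨1⟩, h1⟩
      have h5 : (commutator D).index ≠ 0 := by
        have : Nat.card (D ⧸ commutator D) ≠ 0 := Nat.card_ne_zero.2 ⟨⟨1⟩, h2⟩
        exact this
      have h6 : Nat.card D ≠ 0 := by
        rw [← h3]; exact mul_ne_zero h4 h5
      exact Nat.finite_of_card_ne_zero h6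
  have h7 := key n le_rfl
  rw [Nat.sub_self, derivedSeries_zero] at h7
  exact Finite.of_equiv _ Subgroup.topEquiv.toEquiv

/-- an infinite cyclic group is free -/
theorem n6_free {K : Type} [Group K] (htf : ∀ g : K, IsOfFinOrder g → g = 1) {b : K} (hb : b ≠ 1) :
    IsFreeGroup (Subgroup.zpowers b) := by
  let φ : FreeGroup Unit →* Subgroup.zpowers b :=
    FreeGroup.lift (fun _ => ⟨b, Subgroup.mem_zpowers b⟩)
  have hpow : ∀ w : FreeGroup Unit, ∃ i : ℤ, w = FreeGroup.of () ^ i := fun w =>
    ⟨FreeGroup.freeGroupUnitEquivInt w, (FreeGroup.freeGroupUnitEquivInt.symm_apply_apply w).symm⟩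
  have hφ : ∀ i : ℤ, ((φ (FreeGroup.of () ^ i) : Subgroup.zpowers b) : K) = b ^ i := by
    intro i
    rw [map_zpow, Subgroup.coe_zpow]
    simp [φ]
  have hinj : Function.Injective φ := by
    rw [injective_iff_map_eq_one]
    intro w hw
    obtain ⟨i, rfl⟩ := hpow w
    have h1 := hφ i
    rw [hw, Subgroup.coe_one] at h1
    by_cases hi : i = 0
    · rw [hi, zpow_zero]
    · exact absurd (htf b (isOfFinOrder_iff_zpow_eq_one.2 ⟨i, hi, h1.symm⟩)) hb
  have hsurj : Function.Surjective φ := by
    rintro ⟨y, i, rfl⟩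
    exact ⟨FreeGroup.of () ^ i, Subtype.ext (hφ i)⟩
  exact IsFreeGroup.ofMulEquiv (MulEquiv.ofBijective φ ⟨hinj, hsurj⟩)

theorem n6_core {K : Type} [Group K] (hs : Group.IsSolvable K) (hfg : ∀ L : Subgroup K, L.FG)
    (htf : ∀ g : K, IsOfFinOrder g → g = 1) (hat : Atoroidal K) :
    ∃ F : Subgroup K, F.index ≠ 0 ∧ IsFreeGroup F := by
  classical
  rcases subsingleton_or_nontrivial K with hK | hK
  · refine ⟨⊤, by simp, ?_⟩
    have : Unique (FreeGroup Empty) := inferInstance
    have e : FreeGroup Empty ≃* (⊤ : Subgroup K) :=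
      { toFun := fun _ => 1
        invFun := fun _ => 1
        left_inv := fun _ => Subsingleton.elim _ _
        right_inv := fun _ => Subsingleton.elim _ _
        map_mul' := fun _ _ => Subsingleton.elim _ _ }
    exact IsFreeGroup.ofMulEquiv e
  -- the last nontrivial term of the derived series
  have hex : ∃ n, derivedSeries K n = ⊥ := hs.solvable
  set n := Nat.find hex with hn
  have hn1 : derivedSeries K n = ⊥ := Nat.find_spec hex
  have hn0 : n ≠ 0 := by
    intro h
    rw [h, derivedSeries_zero] at hn1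
    exact top_ne_bot hn1
  obtain ⟨k, hk⟩ := Nat.exists_eq_succ_of_ne_zero hn0
  set A := derivedSeries K k with hA
  have hAb : A ≠ ⊥ := Nat.find_min hex (by omega)
  have hAA : ⁅A, A⁆ = ⊥ := by
    rw [← hn1, hk, Nat.succ_eq_add_one, derivedSeries_succ]
  have hcomm : ∀ x ∈ A, ∀ y ∈ A, Commute x y := by
    intro x hx y hy
    have h1 := Subgroup.commutator_eq_bot_iff_le_centralizer.1 hAA
    exact (Subgroup.mem_centralizer_iff.1 (h1 hx) y hy).symm
  have hAn : A.Normal := derivedSeries_normal K k
  obtain ⟨⟨a, haA⟩, ha1⟩ := Subgroup.ne_bot_iff_exists_ne_one.1 hAb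
  have ha1 : a ≠ 1 := fun h => ha1 (Subtype.ext h)
  -- a uniform exponent
  obtain ⟨S, hS⟩ := hfg A
  have hm : ∀ x : K, ∃ m : ℕ, x ∈ A → 0 < m ∧ x ^ m ∈ Subgroup.zpowers a := by
    intro x
    by_cases hx : x ∈ A
    · obtain ⟨m, h1, h2⟩ := n6_pow htf hat ha1 (hcomm a haA x hx)
      exact ⟨m, fun _ => ⟨h1, h2⟩⟩
    · exact ⟨0, fun h => absurd h hx⟩
  choose m hm using hm
  have hSA : ∀ s ∈ S, s ∈ A := fun s hs => by
    rw [← hS]; exact Subgroup.subset_closure hs
  set N : ℕ := ∏ s ∈ S, m s with hN
  have hNpos : 0 < N := Finset.prod_pos fun s hs => (hm s (hSA s hs)).1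
  have hAN : ∀ x ∈ A, x ^ N ∈ Subgroup.zpowers a := by
    intro x hx
    have hx' : x ∈ Subgroup.closure (S : Set K) := by rw [hS]; exact hx
    induction hx' using Subgroup.closure_induction with
    | mem s hs =>
      have h1 := hm s (hSA s hs)
      obtain ⟨c, hc⟩ := Finset.dvd_prod_of_mem m hs
      rw [hN, hc, pow_mul]
      exact pow_mem h1.2 _
    | one => rw [one_pow]; exact one_mem _
    | mul x y hx1 hy1 ihx ihy =>
      rw [hS] at hx1 hy1
      rw [(hcomm x hx1 y hy1).mul_pow]
      exact mul_mem (ihx hx1) (ihy hy1)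
    | inv x hx1 ihx =>
      rw [hS] at hx1
      rw [inv_pow]
      exact inv_mem (ihx hx1)
  -- the normal infinite cyclic subgroup
  set B : Subgroup K := Subgroup.normalClosure {a ^ N} with hB
  have hBn : B.Normal := Subgroup.normalClosure_normal
  have hBa : B ≤ Subgroup.zpowers a := by
    rw [hB, Subgroup.normalClosure, Subgroup.closure_le]
    intro x hx
    rw [Group.mem_conjugatesOfSet_iff] at hx
    obtain ⟨y, hy, hc⟩ := hx
    rw [Set.mem_singleton_iff] at hy
    subst hy
    obtain ⟨g, hg⟩ := isConj_iff.1 hc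
    rw [← hg, ← conj_pow]
    exact hAN _ (hAn.conj_mem a haA g)
  have haB : a ^ N ∈ B := Subgroup.subset_normalClosure (Set.mem_singleton _)
  have haN : a ^ N ≠ 1 := fun h =>
    ha1 (htf a (isOfFinOrder_iff_pow_eq_one.2 ⟨N, hNpos, h⟩))
  have hcyc : IsCyclic B := isCyclic_of_injective (Subgroup.inclusion hBa)
    (Subgroup.inclusion_injective hBa)
  obtain ⟨⟨b, hbB⟩, hbgen⟩ := hcyc.exists_generator
  have hBb : B = Subgroup.zpowers b := by
    apply le_antisymm
    · intro x hx
      obtain ⟨i, hi⟩ := hbgen ⟨x, hx⟩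
      exact ⟨i, congrArg Subtype.val hi⟩
    · rw [Subgroup.zpowers_le]; exact hbB
  have hb1 : b ≠ 1 := by
    rintro rfl
    rw [hBb, Subgroup.zpowers_one_eq_bot, Subgroup.mem_bot] at haB
    exact haN haB
  have hinj : ∀ i : ℤ, b ^ i = 1 → i = 0 := by
    intro i hi
    by_contra h
    exact hb1 (htf b (isOfFinOrder_iff_zpow_eq_one.2 ⟨i, h, hi⟩))
  -- every element has a positive power in `B`
  have hpow : ∀ g : K, ∃ q : ℕ, 0 < q ∧ g ^ q ∈ B := by
    intro g
    have h1 : g * b * g⁻¹ ∈ B := hBn.conj_mem b hbB g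
    have h2 : g⁻¹ * b * g⁻¹⁻¹ ∈ B := hBn.conj_mem b hbB g⁻¹
    rw [hBb] at h1 h2
    obtain ⟨k, hk⟩ := h1
    obtain ⟨l, hl⟩ := h2
    simp only at hk hl
    have hk' : ∀ i : ℤ, g * b ^ i * g⁻¹ = b ^ (k * i) := by
      intro i
      rw [← conj_zpow, ← hk, ← zpow_mul]
    have h3 : b = b ^ (k * l) := by
      rw [← hk', hl]; group
    have h4 : b ^ (k * l - 1) = 1 := by
      rw [zpow_sub_one, ← h3, mul_inv_cancel]
    have h5 : k * l = 1 := by have := hinj _ h4; omega
    have h6 : k * k = 1 := by
      rcases Int.eq_one_or_neg_one_of_mul_eq_one h5 with h | h <;> rw [h] <;> norm_num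
    have h7 : g ^ 2 * b * (g ^ 2)⁻¹ = b := by
      calc g ^ 2 * b * (g ^ 2)⁻¹ = g * (g * b * g⁻¹) * g⁻¹ := by
            rw [pow_two, mul_inv_rev]; simp only [mul_assoc]
        _ = g * b ^ k * g⁻¹ := by rw [hk]
        _ = b ^ (k * k) := hk' k
        _ = b := by rw [h6, zpow_one]
    have h8 : Commute b (g ^ 2) := by
      have : g ^ 2 * b = b * g ^ 2 := by
        rw [← mul_inv_eq_iff_eq_mul]; exact h7
      exact this.symm
    obtain ⟨q, hq1, hq2⟩ := n6_pow htf hat hb1 h8
    refine ⟨2 * q, by omega, ?_⟩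
    rw [pow_mul, hBb]; exact hq2
  have hQ : Finite (K ⧸ B) := by
    apply n6_torsion (Q := K ⧸ B)
    · infer_instance
    · intro L
      have h1 : L = (L.comap (QuotientGroup.mk' B)).map (QuotientGroup.mk' B) :=
        (Subgroup.map_comap_eq_self_of_surjective (QuotientGroup.mk'_surjective B) L).symm
      rw [h1]
      have h2 := hfg (L.comap (QuotientGroup.mk' B))
      rw [← Group.fg_iff_subgroup_fg] at h2 ⊢
      exact Group.fg_of_surjective (f := (QuotientGroup.mk' B).subgroupMap
        (L.comap (QuotientGroup.mk' B))) (MonoidHom.subgroupMap_surjective _ _)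
    · intro x
      induction x using QuotientGroup.induction_on with
      | H g =>
        obtain ⟨q, hq1, hq2⟩ := hpow g
        rw [isOfFinOrder_iff_pow_eq_one]
        refine ⟨q, hq1, ?_⟩
        rw [← QuotientGroup.mk_pow]
        exact (QuotientGroup.eq_one_iff _).2 hq2
  refine ⟨B, ?_, ?_⟩
  · have : Nat.card (K ⧸ B) ≠ 0 := Nat.card_ne_zero.2 ⟨⟨1⟩, hQ⟩
    exact this
  · rw [hBb]; exact n6_free htf hb1

/-- reduction of the statement about subgroups to the subgroup as a group -/
theorem n6_reduce {G : Type} [Group G] (K : Subgroup G) (hs : Group.IsSolvable K)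
    (hfg : ∀ L : Subgroup K, L.FG) (htf : ∀ g ∈ K, IsOfFinOrder g → g = 1) (hat : Atoroidal K) :
    ∃ F : Subgroup G, F ≤ K ∧ F.relIndex K ≠ 0 ∧ IsFreeGroup F := by
  obtain ⟨F, h1, h2⟩ := n6_core hs hfg (fun g hg => Subtype.ext (htf g g.2
    (Submonoid.isOfFinOrder_coe.2 hg))) hat
  refine ⟨F.map K.subtype, Subgroup.map_subtype_le F, ?_, ?_⟩
  · rw [Subgroup.relIndex, Subgroup.subgroupOf, Subgroup.comap_map_eq_self_of_injective
      K.subtype_injective]
    exact h1
  · exact IsFreeGroup.ofMulEquiv (F.equivMapOfInjective K.subtype K.subtype_injective)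

/-- N6 -/
theorem small_polycyclic {G : Type} [Group G] (hs : Group.IsSolvable G)
    (h : ∀ K : Subgroup G, K.FG) : LocallySmall G := by
  intro K _ htf hat
  refine n6_reduce K inferInstance (fun L => ?_) htf hat
  have h1 := h (L.map K.subtype)
  rw [← Group.fg_iff_subgroup_fg] at h1 ⊢
  exact Group.fg_of_surjective (f := ((L.equivMapOfInjective K.subtype
    K.subtype_injective).symm : L.map K.subtype →* L)) (MulEquiv.surjective _)

/-- N6 -/
theorem small_comm {G : Type} [CommGroup G] : LocallySmall G := by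
  intro K hK htf hat
  refine n6_reduce K inferInstance (fun L => ?_) htf hat
  have hKfg : Group.FG K := (Group.fg_iff_subgroup_fg K).2 hK
  have h1 : Module.Finite ℤ (Additive K) :=
    Module.Finite.iff_addGroup_fg.2 (GroupFG.iff_add_fg.1 hKfg)
  have h2 : IsNoetherian ℤ (Additive K) := inferInstance
  have h3 := h2.noetherian (AddSubgroup.toIntSubmodule (Subgroup.toAddSubgroup L))
  rw [Submodule.fg_iff_addSubgroup_fg] at h3
  exact (Subgroup.fg_iff_add_fg L).2 h3

end Pool.Agent.H47.WT
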